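import Pool.Agent.U475.PL.All
import Pool.Agent.U475.PL.Root
import Pool.Agent.U475.PL.Four

/-!
# Partitions of `2 n` with a prime between `√(2n)` and `n` from an arbitrary dense set of primes

Let `A` be an arbitrary set of primes `p ≤ X` which contains a positive proportion of them. With at most
`K log X / log log X` exceptions all the integers `n`, `X < n ≤ 2 X`, have many representations `2 n = p + m s` with
`√(2n) < p < n` and `p ∈ A`, where `m` is at most a power of `log X` and `s` has at most two prime factors, both larger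
than `X ^ (1 / 7)`. This number of exceptions is sharp.
-/

set_option autoImplicit false

open Finset

namespace Pool.Agent.Results.MP_33f996_nt.DenseSetsSharpExceptions

/-- `s > 1`, and all the prime factors of `s` exceed `X ^ (1 / 7)` -/
def Rough (X s : ℕ) : Prop := 1 < s ∧ ∀ q : ℕ, q.Prime → q ∣ s → (X : ℝ) ^ (1 / 7 : ℝ) < q

/-- `s` is rough and has one or two prime factors, counted with multiplicity -/
def AlmostPrime (X s : ℕ) : Prop := Rough X s ∧ s.primeFactorsList.length ≤ 2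

/-- `2 n = p + m s` with a positive integer `m ≤ (log X) ^ U` and an `s` with the property `S` -/
def Part (X U : ℕ) (S : ℕ → Prop) (n p : ℕ) : Prop :=
  ∃ m s : ℕ, 1 ≤ m ∧ (m : ℝ) ≤ Real.log X ^ U ∧ S s ∧ 2 * n = p + m * s

/-- the integers `n`, `X < n ≤ 2 X`, for which fewer than `c |A| log log X / log X` elements `p` of `A` satisfy
`√(2n) < p < n` and `2 n = p + m s` with `m ≤ (log X) ^ U` and an almost prime `s` -/
def exceptional (X U : ℕ) (c : ℝ) (A : Set ℕ) : Set ℕ :=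
  {n : ℕ | X < n ∧ n ≤ 2 * X ∧
    (({p : ℕ | p ∈ A ∧ Real.sqrt (2 * n) < p ∧ p < n ∧ Part X U (AlmostPrime X) n p}.ncard : ℕ) : ℝ) <
      c * (Real.log (Real.log X) / Real.log X) * (A.ncard : ℝ)}

/-- **(1)** For every `δ > 0` there are `c > 0`, `K` and `U` such that for all `X ≥ 3` and every set `A` of primes
`p ≤ X` with at least `δ X / log X` elements: for all but at most `K log X / log log X` of the integers `n`,
`X < n ≤ 2 X`, at least `c |A| log log X / log X` elements `p` of `A` satisfy `√(2n) < p < n` and `2 n = p + m s`,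
`1 ≤ m ≤ (log X) ^ U`, where `s > 1` has at most two prime factors, both larger than `X ^ (1 / 7)`.
**(2)** For all `U` and `η > 0` there are `c > 0` and `X₀` such that for all `X ≥ X₀` and EVERY set `H` of at most
`c log X / log log X` integers `n`, `X < n ≤ 2 X`, there is a set `A` which contains at least the proportion
`1 - η` of the primes up to `X`, such that `2 n = p + m s` is impossible for all `n ∈ H`, `p ∈ A`,
`1 ≤ m ≤ (log X) ^ U` and all `s > 1` (with any number of prime factors) whose prime factors exceed `X ^ (1 / 7)`. -/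
theorem result :
    (∀ δ : ℝ, 0 < δ → ∃ (c K : ℝ) (U : ℕ), 0 < c ∧ ∀ X : ℕ, 3 ≤ X → ∀ A : Set ℕ,
      (∀ p ∈ A, p.Prime ∧ p ≤ X) → δ * X / Real.log X ≤ A.ncard →
      (exceptional X U c A).Finite ∧
        ((exceptional X U c A).ncard : ℝ) ≤ K * (Real.log X / Real.log (Real.log X))) ∧
    (∀ (U : ℕ) (η : ℝ), 0 < η → ∃ (c : ℝ) (X₀ : ℕ), 0 < c ∧ ∀ X : ℕ, X₀ ≤ X → ∀ H : Set ℕ,
      (∀ n ∈ H, X < n ∧ n ≤ 2 * X) → (H.ncard : ℝ) ≤ c * (Real.log X / Real.log (Real.log X)) →
      ∃ A : Set ℕ, (∀ p ∈ A, p.Prime ∧ p ≤ X) ∧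
        (1 - η) * ({p : ℕ | p.Prime ∧ p ≤ X}.ncard : ℝ) ≤ (A.ncard : ℝ) ∧
        ∀ n ∈ H, ∀ p ∈ A, ¬ Part X U (Rough X) n p) := by
  classical
  constructor
  · intro δ hδ
    obtain ⟨c, K, U, hc, H⟩ := Pool.Agent.U475.PL.root_half Pool.Agent.U475.PL.dense δ hδ
    refine ⟨c, K, U, hc, fun X hX A hA hcard => ?_⟩
    have hAfin : A.Finite := (Set.finite_Iic X).subset fun p hp => (hA p hp).2
    obtain ⟨B, rfl⟩ : ∃ B : Finset ℕ, A = (B : Set ℕ) := ⟨hAfin.toFinset, by simp⟩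
    have hB : ∀ p ∈ B, p.Prime ∧ p ≤ X := fun p hp => hA p (mem_coe.2 hp)
    rw [Set.ncard_coe_finset] at hcard
    have key := H X hX B hB hcard
    have hsub : exceptional X U c (B : Set ℕ) ⊆
        (((Ioc X (2 * X)).filter (fun n : ℕ =>
        ((B.filter (fun p => 2 * n < p ^ 2 ∧ ∃ m s : ℕ, 1 ≤ m ∧ (m : ℝ) ≤ Real.log X ^ U ∧ 1 < s ∧
          2 * n = p + m * s ∧ Pool.Agent.U475.PL.AP2 s ∧
            ∀ q : ℕ, q.Prime → q ∣ s → (X : ℝ) ^ (1 / 7 : ℝ) < q)).card : ℝ) <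
          c * (Real.log (Real.log X) / Real.log X) * B.card) : Finset ℕ) : Set ℕ) := by
      rintro n ⟨h1, h2, h3⟩
      rw [mem_coe, mem_filter, mem_Ioc]
      refine ⟨⟨h1, h2⟩, ?_⟩
      rw [Set.ncard_coe_finset] at h3
      refine lt_of_le_of_lt ?_ h3
      have h4 : ((B.filter (fun p => 2 * n < p ^ 2 ∧ ∃ m s : ℕ, 1 ≤ m ∧ (m : ℝ) ≤ Real.log X ^ U ∧ 1 < s ∧
          2 * n = p + m * s ∧ Pool.Agent.U475.PL.AP2 s ∧
            ∀ q : ℕ, q.Prime → q ∣ s → (X : ℝ) ^ (1 / 7 : ℝ) < q) : Finset ℕ) : Set ℕ) ⊆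
          {p : ℕ | p ∈ (B : Set ℕ) ∧ Real.sqrt (2 * n) < p ∧ p < n ∧ Part X U (AlmostPrime X) n p} := by
        intro p hp
        rw [mem_coe, mem_filter] at hp
        obtain ⟨hpB, hsq, m, s, g1, g2, g3, g4, g5, g6⟩ := hp
        have hpX := hB p hpB
        refine ⟨mem_coe.2 hpB, ?_, by omega, m, s, g1, g2, ⟨⟨g3, g6⟩, g5⟩, g4⟩
        rw [Real.sqrt_lt' (by exact_mod_cast hpX.1.pos)]
        exact_mod_cast hsq
      have h5 := Set.ncard_le_ncard h4 ((finite_toSet B).subset fun p hp => hp.1)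
      rw [Set.ncard_coe_finset] at h5
      exact_mod_cast h5
    refine ⟨(finite_toSet _).subset hsub, ?_⟩
    refine le_trans ?_ key
    have h5 := Set.ncard_le_ncard hsub (finite_toSet _)
    rw [Set.ncard_coe_finset] at h5
    exact_mod_cast h5
  · intro U η hη
    obtain ⟨c, X₀, hc, H⟩ := Pool.Agent.U475.PL.sharp4 Pool.Agent.U475.PL.UBS_thm
      Pool.Agent.U475.PL.VLB_thm U η hη
    refine ⟨c, X₀, hc, fun X hX S hS hcard => ?_⟩
    have hSfin : S.Finite := (Set.finite_Iic (2 * X)).subset fun h hh => (hS h hh).2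
    obtain ⟨T, rfl⟩ : ∃ T : Finset ℕ, S = (T : Set ℕ) := ⟨hSfin.toFinset, by simp⟩
    rw [Set.ncard_coe_finset] at hcard
    obtain ⟨A, hA1, hA2, hA3⟩ := H X hX (T.image (fun n : ℕ => (2 * n : ℤ))) (by
      intro a ha
      rw [mem_image] at ha
      obtain ⟨n, hn, rfl⟩ := ha
      have h1 := hS n (mem_coe.2 hn)
      refine ⟨by omega, ?_⟩
      have h2 : |((2 * n : ℤ))| ≤ 4 * X := by
        rw [abs_of_nonneg (by omega)]
        omega
      exact_mod_cast h2) (by
      refine le_trans ?_ hcard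
      exact_mod_cast Finset.card_image_le)
    refine ⟨(A : Set ℕ), fun p hp => hA1 p (mem_coe.1 hp), ?_, ?_⟩
    · rw [Set.ncard_coe_finset]
      have h2 : {p : ℕ | p.Prime ∧ p ≤ X} = (((Icc 1 X).filter Nat.Prime : Finset ℕ) : Set ℕ) := by
        ext p
        rw [mem_coe, mem_filter, mem_Icc, Set.mem_setOf_eq]
        constructor
        · rintro ⟨h3, h4⟩
          exact ⟨⟨h3.one_le, h4⟩, h3⟩
        · rintro ⟨⟨-, h4⟩, h3⟩
          exact ⟨h3, h4⟩
      rw [h2, Set.ncard_coe_finset]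
      exact hA2
    · intro n hn p hp hd
      refine hA3 (2 * n : ℤ) (mem_image.2 ⟨n, mem_coe.1 hn, rfl⟩) p (mem_coe.1 hp) ?_
      obtain ⟨m, s, g1, g2, ⟨g3, g4⟩, g5⟩ := hd
      refine ⟨m, s, g1, g2, g3, ?_, trivial, g4⟩
      have h6 : ((2 * n : ℤ) - p).natAbs = 2 * n - p := by omega
      rw [h6]
      omega

end Pool.Agent.Results.MP_33f996_nt.DenseSetsSharpExceptions
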