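import Pool.Agent.U108.DP.N1
import Pool.Agent.U108.GK.A

/-!
# Goldbach partitions with a prime in `(√(2n), n)` for all even numbers near almost all values of polynomials in several
variables at integers with restricted digits

Let `F` be any polynomial of total degree at least `2` with integer coefficients, in any number of variables, and let the
variables run through integers whose digits are restricted to arbitrary sets of at least two digits. For almost all choices
of the variables ALL the even integers `2 n` close to the value of `F` have a partition `2 n = p + q` as in the problem, and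
the number of the representations with `p` in any long interval is the expected one.

Definitions used:
* from `Pool.Agent.H560R3.GB` (starting files): `sing m`: the singular series `2 C₂ ∏_{p ∣ m, p > 2} (p - 1) / (p - 2)`,
  `C₂ = ∏_{p > 2} (1 - 1 / (p - 1) ^ 2)`;
* from `Pool.Agent.TH872.GQ` (starting files): `S b E k`: the integers `0 ≤ n < b ^ k` whose `i`-th digit in base `b` lies
  in `E i`, for all `i < k`;
* from `Pool.Agent.U108.DP`: `Bo b k D`: the tuples `n` of natural numbers with `n j ∈ S b (D j) k` for all `j`;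
  `val F n`: the value of the polynomial `F` at the tuple `n`;
* from `Pool.Agent.U108.GK`: `R m y₁ y₂`: the number of the primes `p`, `y₁ < p ≤ y₂`, for which `m - p` is a prime.

Method: the energy theorem `Pool.Agent.U108.DP.poly_energy` (a multilinear inequality of Weyl type for disjoint windows of
digits), and the theorem of the starting files on Goldbach's problem in thin families (`R459.near_even`).
-/

set_option autoImplicit false

namespace Pool.Agent.Results.MP_33f996_nt.DigitPolynomials

open Finset Pool.Agent.U108.DP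
open Pool.Agent.H560R3.GB (sing)
open Pool.Agent.U108.GK (R)

/-- `m = 2 n` has a Goldbach partition `m = p + q` with `√m < p < n`. -/
def Partition (m : ℕ) : Prop := ∃ p : ℕ, p.Prime ∧ Real.sqrt m < p ∧ 2 * p < m ∧ (m - p).Prime

/-- `Partition m`, and for all `y₁ < y₂ ≤ m` with `y₂ - y₁ ≥ m / (log m) ^ A` the number `R m y₁ y₂` agrees with the
prediction `sing m * (y₂ - y₁) / (log m) ^ 2` up to a relative error of at most `ε`. -/
def Holds (ε : ℝ) (A m : ℕ) : Prop :=
  Partition m ∧ ∀ y₁ y₂ : ℕ, y₁ < y₂ → y₂ ≤ m → (m : ℝ) / Real.log m ^ A ≤ (y₂ : ℝ) - y₁ →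
    |(R m y₁ y₂ : ℝ) - sing m * ((y₂ : ℝ) - y₁) / Real.log m ^ 2| ≤ ε * (sing m * ((y₂ : ℝ) - y₁) / Real.log m ^ 2)

/-- The sets `D j i`, `i < k`, are sets of at least two digits in base `b`. -/
def Digits {J : Type} (b k : ℕ) (D : J → ℕ → Finset ℕ) : Prop := ∀ j, ∀ i < k, D j i ⊆ range b ∧ 2 ≤ (D j i).card

open Classical in
/-- The number of the tuples `n` in `Bo b k D` for which `Holds` fails for some even integer `m > 0` at a distance of at
most `k ^ W` from `v n`. -/
noncomputable def exceptions {J : Type} [Fintype J] [DecidableEq J] (b k : ℕ) (D : J → ℕ → Finset ℕ) (ε : ℝ) (A W : ℕ) (v : (J → ℕ) → ℤ) : ℕ :=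
  ((Bo b k D).filter (fun n => ∃ m : ℕ, 0 < m ∧ Even m ∧ |(m : ℤ) - v n| ≤ (k : ℤ) ^ W ∧ ¬ Holds ε A m)).card

/-- Let `b ≥ 2`, `d ≥ 2`, `A`, `B`, `W`, `U` and `0 < ε < 1` be fixed, and let `k` be large.

(1) Let `J` be an arbitrary finite set of variables, let `D j i` (`j ∈ J`, `i < k`) be arbitrary sets of at least two
digits in base `b`, and let `F` be an arbitrary polynomial with integer coefficients in the variables `x_j`, `j ∈ J`, of
total degree `d`, such that at least one of the nonzero coefficients of degree `d` is at most `k ^ B` in absolute value and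
the values of `F` on the box `Bo b k D` are at most `k ^ B b ^ (d k)`. Then all the tuples `n` of integers
`0 ≤ n_j < b ^ k` with the digits number `i` in `D j i`, except for at most a proportion of `1 / k ^ U` of them, have the
following property: ALL the even integers `m > 0` with `|m - F(n)| ≤ k ^ W` satisfy `Holds ε A m`.

(2) For a fixed polynomial `F` of total degree at least two this holds without any further condition.

(3) In particular it holds for the determinants of almost all the `n × n` matrices (`n ≥ 2`) with entries whose digits are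
restricted in this way. -/
theorem result (b d A B W U : ℕ) (hb : 2 ≤ b) (hd : 2 ≤ d) (ε : ℝ) (hε : 0 < ε) (hε1 : ε < 1) :
    (∃ k₀ : ℕ, ∀ k : ℕ, k₀ ≤ k → ∀ (J : Type) [Fintype J] [DecidableEq J] (D : J → ℕ → Finset ℕ), Digits b k D →
      ∀ F : MvPolynomial J ℤ, F.totalDegree = d →
      (∃ m : J →₀ ℕ, m.degree = d ∧ F.coeff m ≠ 0 ∧ |F.coeff m| ≤ (k : ℤ) ^ B) →
      (∀ n ∈ Bo b k D, val F n ≤ (k : ℤ) ^ B * (b : ℤ) ^ (d * k)) →
      (exceptions b k D ε A W (val F) : ℝ) ≤ (Bo b k D).card / (k : ℝ) ^ U) ∧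
    (∀ (J : Type) [Fintype J] [DecidableEq J] (F : MvPolynomial J ℤ), 2 ≤ F.totalDegree → ∃ k₀ : ℕ, ∀ k : ℕ, k₀ ≤ k →
      ∀ D : J → ℕ → Finset ℕ, Digits b k D →
      (exceptions b k D ε A W (val F) : ℝ) ≤ (Bo b k D).card / (k : ℝ) ^ U) ∧
    (∀ n : ℕ, 2 ≤ n → ∃ k₀ : ℕ, ∀ k : ℕ, k₀ ≤ k →
      ∀ D : Fin n × Fin n → ℕ → Finset ℕ, Digits b k D →
      (exceptions b k D ε A W (fun a => (Matrix.of (fun i j => (a (i, j) : ℤ))).det) : ℝ) ≤
        (Bo b k D).card / (k : ℝ) ^ U) := by
  classical
  have hof : ∀ m : ℕ, 3000 ≤ m → 2 ∣ m → Pool.Agent.W93.PG.WinP ε (A + 1) m → Holds ε A m :=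
    fun m hm _ hw => Pool.Agent.U108.GK.main ε hε hε1 A m hm hw
  have h2 : ∀ (J : Type) [Fintype J] [DecidableEq J] (F : MvPolynomial J ℤ), 2 ≤ F.totalDegree → ∃ k₀ : ℕ, ∀ k : ℕ, k₀ ≤ k →
      ∀ D : J → ℕ → Finset ℕ, Digits b k D →
      (exceptions b k D ε A W (val F) : ℝ) ≤ (Bo b k D).card / (k : ℝ) ^ U := by
    intro J _ _ F hF
    obtain ⟨k₀, h⟩ := near_fixed b (A + 1) W U 3000 hb ε hε (Holds ε A) hof J F hF
    exact ⟨k₀, fun k hk D hD => h k hk D hD _ (fun n hn => hn)⟩
  refine ⟨?_, h2, ?_⟩
  · obtain ⟨r, rfl⟩ : ∃ r, d = r + 2 := ⟨d - 2, by omega⟩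
    obtain ⟨k₀, h⟩ := near_poly b r (A + 1) B W U 3000 hb ε hε (Holds ε A) hof
    exact ⟨k₀, fun k hk J _ _ D hD F hF hm hv => h k hk J D hD F hF.le hm hv _ (fun n hn => hn)⟩
  · intro n hn
    obtain ⟨k₀, h⟩ := h2 (Fin n × Fin n) (detP n) (by rw [detP_degree]; exact hn)
    refine ⟨k₀, fun k hk D hD => ?_⟩
    have h3 := h k hk D hD
    have e : (fun a : Fin n × Fin n → ℕ => (Matrix.of (fun i j => (a (i, j) : ℤ))).det) = val (detP n) := by
      funext a
      exact (val_detP n a).symm
    rw [e]
    exact h3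

end Pool.Agent.Results.MP_33f996_nt.DigitPolynomials
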