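import Pool.Agent.U160.FD.Gold
import Pool.Agent.R459.C2

/-!
# Goldbach partitions with a prime in `(√(2 n), n)`, in all long windows, near the dilates of almost every point of a measure with Fourier decay

Definitions used:
* in `Pool.Agent.U160.FD` (file `Defs`): `FourierDecay μ`: the Fourier transform `μ^(t) = ∫ exp(i t x) dμ(x)` of `μ` is
  `O(t ^ (-β))` for some `β > 0`; `FourierSmall μ`: there are `h ≥ 1`, `c` and `K` with
  `∫_0^T |μ^(t)| ^ (2 h) dt ≤ K (log T) ^ c` for all `T ≥ 2`;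
* in `Pool.Agent.H560R3.GB`: `sing m`: the singular series `2 C₂ ∏_{p ∣ m, p > 2} (p - 1) / (p - 2)`, where
  `C₂ = ∏_{p > 2} (1 - 1 / (p - 1) ^ 2)`.

Method (`Pool.Agent.U160.FD`): the signed sums of `2 h` independent points of `μ` are in an interval of length `r` with
probability at most `r (log 1 / r) ^ c` up to a constant, by the moment of the Fourier transform; thus the weights
`μ{x : ⌊λ x⌋ = a}` have nearly minimal additive energy of order `h`, they are approximated by finite families (with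
multiplicities), and the theorem of the starting files on Goldbach pairs for families of nearly minimal energy
(`Pool.Agent.TH935.GF.fam_win`) bounds the measure of the exceptional points; Borel-Cantelli.
-/

set_option autoImplicit false

namespace Pool.Agent.Results.MP_33f996_nt.FourierDecay

open MeasureTheory Filter Finset Pool.Agent.H560R3.GB Pool.Agent.U160.FD

open Classical in
/-- The number of the primes `p` in the window `(y₁, y₂]` with `√(2 n) < p < n` for which `2 n - p` is a prime. -/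
noncomputable def K (n y₁ y₂ : ℕ) : ℕ :=
  ((Ioc y₁ y₂).filter (fun p : ℕ => p.Prime ∧ (2 * n - p).Prime ∧ √((2 * n : ℕ) : ℝ) < p ∧ p < n)).card

/-- For all windows `(y₁, y₂] ⊆ (0, n]` of length at least `n / log ^ A n` there is a prime `p` with
`√(2 n) < p < n` and `y₁ < p ≤ y₂` for which `2 n - p` is a prime, and the number of these primes is
`sing (2 n) * (y₂ - y₁) / log ^ 2 (2 n)` up to a relative error of at most `ε`. -/
def Holds (ε : ℝ) (A n : ℕ) : Prop :=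
  ∀ y₁ y₂ : ℕ, y₁ < y₂ → y₂ ≤ n → (n : ℝ) / Real.log n ^ A ≤ (y₂ : ℝ) - y₁ →
    (∃ p : ℕ, p.Prime ∧ (2 * n - p).Prime ∧ √((2 * n : ℕ) : ℝ) < p ∧ p < n ∧ y₁ < p ∧ p ≤ y₂) ∧
    |(K n y₁ y₂ : ℝ) - sing (2 * n) * (((y₂ : ℝ) - y₁) / Real.log (2 * n : ℕ) ^ 2)| ≤
      ε * (sing (2 * n) * (((y₂ : ℝ) - y₁) / Real.log (2 * n : ℕ) ^ 2))

lemma K_le (n y₁ y₂ : ℕ) : K n y₁ y₂ ≤ Pool.Agent.W93.PG.cnt (2 * n) y₁ y₂ := by
  classical
  unfold K Pool.Agent.W93.PG.cnt
  apply card_le_card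
  intro p hp
  rw [mem_filter] at hp ⊢
  exact ⟨hp.1, hp.2.1, hp.2.2.1⟩

lemma K_ge (n y₁ y₂ : ℕ) (hy : y₂ ≤ n) :
    (Pool.Agent.W93.PG.cnt (2 * n) y₁ y₂ : ℝ) ≤ K n y₁ y₂ + (√((2 * n : ℕ) : ℝ) + 3) := by
  classical
  have h1 : (Ioc y₁ y₂).filter (fun p => p.Prime ∧ (2 * n - p).Prime) ⊆
      (Ioc y₁ y₂).filter (fun p : ℕ => p.Prime ∧ (2 * n - p).Prime ∧ √((2 * n : ℕ) : ℝ) < p ∧ p < n) ∪
      (range (⌊√((2 * n : ℕ) : ℝ)⌋₊ + 1) ∪ {n}) := by
    intro p hp
    rw [mem_filter, mem_Ioc] at hp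
    rw [mem_union, mem_filter, mem_Ioc, mem_union, mem_range, mem_singleton]
    obtain ⟨⟨a1, a2⟩, a3, a4⟩ := hp
    by_cases h2 : √((2 * n : ℕ) : ℝ) < p
    · rcases lt_or_eq_of_le (a2.trans hy) with h5 | h5
      · exact Or.inl ⟨⟨a1, a2⟩, a3, a4, h2, h5⟩
      · exact Or.inr (Or.inr h5)
    · right
      left
      rw [Nat.lt_succ_iff]
      exact Nat.le_floor (not_lt.1 h2)
  have h3 := (card_le_card h1).trans (card_union_le _ _)
  have h6 := card_union_le (range (⌊√((2 * n : ℕ) : ℝ)⌋₊ + 1)) {n}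
  rw [card_range, card_singleton] at h6
  have h7 : ((Ioc y₁ y₂).filter (fun p => p.Prime ∧ (2 * n - p).Prime)).card ≤
      ((Ioc y₁ y₂).filter (fun p : ℕ => p.Prime ∧ (2 * n - p).Prime ∧ √((2 * n : ℕ) : ℝ) < p ∧ p < n)).card +
      (⌊√((2 * n : ℕ) : ℝ)⌋₊ + 1 + 1) := by omega
  have h4 : (Pool.Agent.W93.PG.cnt (2 * n) y₁ y₂ : ℝ) ≤ K n y₁ y₂ + ((⌊√((2 * n : ℕ) : ℝ)⌋₊ : ℝ) + 1 + 1) := by
    unfold Pool.Agent.W93.PG.cnt K
    exact_mod_cast h7
  have h5 := Nat.floor_le (Real.sqrt_nonneg ((2 * n : ℕ) : ℝ))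
  linarith

lemma holds_of (A : ℕ) (ε : ℝ) (hε : 0 < ε) : ∃ m₀ : ℕ, ∀ n : ℕ, m₀ ≤ 2 * n →
    Pool.Agent.W93.PG.WinP (min ε (1 / 2) / 2) (A + 1) (2 * n) → Holds ε A n := by
  obtain ⟨ε', hε'⟩ : ∃ ε', ε' = min ε (1 / 2) := ⟨_, rfl⟩
  have he0 : 0 < ε' := by rw [hε']; exact lt_min hε (by norm_num)
  have he1 : ε' ≤ ε := by rw [hε']; exact min_le_left _ _
  have he2 : ε' ≤ 1 / 2 := by rw [hε']; exact min_le_right _ _
  obtain ⟨n1, h1⟩ := Pool.Agent.H373R2.T7.ev_L' 3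
  obtain ⟨n2, h2⟩ := Pool.Agent.H373R2.T7.ev_log' (A + 2) (20 / ε')
  rw [← hε']
  refine ⟨n1 + n2 + 6, fun n hn hw => ?_⟩
  have hL := h1 (2 * n) (by omega)
  have hc := h2 (2 * n) (by omega)
  intro y₁ y₂ hy hyn hl
  have hn3 : (3 : ℝ) ≤ n := by exact_mod_cast (by omega : 3 ≤ n)
  obtain ⟨L, hLd⟩ : ∃ L, L = Real.log ((2 * n : ℕ) : ℝ) := ⟨_, rfl⟩
  obtain ⟨R, hR⟩ : ∃ R, R = √((2 * n : ℕ) : ℝ) := ⟨_, rfl⟩
  have hR2 : R * R = 2 * n := by
    rw [hR, Real.mul_self_sqrt (Nat.cast_nonneg _)]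
    push_cast
    ring
  have hR1 : 1 ≤ R := by
    rw [hR]
    apply Real.one_le_sqrt.2
    push_cast
    linarith
  rw [← hLd] at hL hc
  rw [← hR] at hc
  have hlog0 : 1 ≤ Real.log (n : ℝ) := by
    rw [Real.le_log_iff_exp_le (by linarith)]
    linarith [Real.exp_one_lt_d9]
  have hlogL : Real.log (n : ℝ) ≤ L := by
    rw [hLd]
    exact Real.log_le_log (by linarith) (by exact_mod_cast (by omega : n ≤ 2 * n))
  have hyr : (y₁ : ℝ) < y₂ := by exact_mod_cast hy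
  obtain ⟨D, hD⟩ : ∃ D : ℝ, D = (y₂ : ℝ) - y₁ := ⟨_, rfl⟩
  have hD1 : n / L ^ A ≤ D := by
    rw [hD]
    refine le_trans ?_ hl
    apply div_le_div_of_nonneg_left (by linarith) (by positivity)
    exact pow_le_pow_left₀ (by linarith) hlogL _
  have hwin := hw y₁ y₂ hy (by omega) (by
    rw [← hLd, ← hD]
    refine le_trans ?_ hD1
    have e : ((2 * n : ℕ) : ℝ) = 2 * n := by push_cast; ring
    rw [e, pow_succ, div_le_div_iff₀ (by positivity) (by positivity)]
    have : 0 ≤ (n : ℝ) * L ^ A := by positivity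
    nlinarith)
  rw [← hLd, ← hD] at hwin
  obtain ⟨M, hM⟩ : ∃ M : ℝ, M = sing (2 * n) * (D / L ^ 2) := ⟨_, rfl⟩
  have e1 : sing (2 * n) * D / L ^ 2 = M := by rw [hM]; ring
  rw [e1] at hwin
  rw [← hLd, ← hD, ← hM]
  have hs := Pool.Agent.R459.sing_num (2 * n)
  have hD0 : 0 < D := by rw [hD]; linarith
  have hQ0 : 0 < D / L ^ 2 := by positivity
  have hM1 : 327 / 250 * (D / L ^ 2) ≤ M := by
    rw [hM]
    exact mul_le_mul_of_nonneg_right hs hQ0.le
  have hbig : R + 3 ≤ ε' / 2 * M := by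
    have h3 : n / L ^ (A + 2) ≤ D / L ^ 2 := by
      rw [pow_add, ← div_div]
      exact div_le_div_of_nonneg_right hD1 (by positivity)
    have h4 : 20 / ε' * L ^ (A + 2) ≤ R := hc
    have h5 : 10 * R ≤ ε' * (n / L ^ (A + 2)) := by
      rw [mul_div_assoc', le_div_iff₀ (by positivity)]
      have h6 : 20 * L ^ (A + 2) ≤ ε' * R := by
        have h7 : ε' * (20 / ε' * L ^ (A + 2)) ≤ ε' * R := mul_le_mul_of_nonneg_left h4 he0.le
        have h8 : ε' * (20 / ε' * L ^ (A + 2)) = 20 * L ^ (A + 2) := by field_simp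
        rw [← h8]
        exact h7
      have h9 : R * (20 * L ^ (A + 2)) ≤ R * (ε' * R) := mul_le_mul_of_nonneg_left h6 (by linarith)
      have h10 : R * (ε' * R) = ε' * (2 * n) := by rw [← hR2]; ring
      nlinarith
    have h11 : ε' * (n / L ^ (A + 2)) ≤ ε' * (D / L ^ 2) := mul_le_mul_of_nonneg_left h3 he0.le
    have h12 : ε' * (327 / 250 * (D / L ^ 2)) ≤ ε' * M := mul_le_mul_of_nonneg_left hM1 he0.le
    nlinarith
  have hK1 : (K n y₁ y₂ : ℝ) ≤ Pool.Agent.W93.PG.cnt (2 * n) y₁ y₂ := by exact_mod_cast K_le n y₁ y₂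
  have hK2 := K_ge n y₁ y₂ hyn
  rw [← hR] at hK2
  have hM0 : 0 < M := by linarith [mul_pos (by norm_num : (0 : ℝ) < 327 / 250) hQ0]
  have hfin : |(K n y₁ y₂ : ℝ) - M| ≤ ε' * M := by
    rw [abs_le] at hwin ⊢
    constructor <;> linarith [hwin.1, hwin.2]
  refine ⟨?_, hfin.trans (mul_le_mul_of_nonneg_right he1 hM0.le)⟩
  have hpos : 0 < K n y₁ y₂ := by
    have h3 := (abs_le.1 hfin).1
    have h4 : (0 : ℝ) < K n y₁ y₂ := by nlinarith
    exact_mod_cast h4
  classical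
  unfold K at hpos
  obtain ⟨p, hp⟩ := card_pos.1 hpos
  rw [mem_filter, mem_Ioc] at hp
  exact ⟨p, hp.2.1, hp.2.2.1, hp.2.2.2.1, hp.2.2.2.2, hp.1.1, hp.1.2⟩

/-- Let `μ` be a probability measure on the line whose Fourier transform is `O(t ^ (-β))` for some `β > 0`, or
satisfies the weaker condition `FourierSmall` (for example a measure on a set of arbitrarily small positive dimension).

(1) Let `λ_j` be any sequence with `λ_j ≥ exp (j ^ δ)` for large `j`, for some `δ > 0`. Then for `μ`-almost every `x > 0`: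
for all `A`, `W` and `ε > 0` and all large `j`, ALL the even integers `m = 2 n` with `|m - λ_j x| ≤ (log λ_j) ^ W` have the
following property: in every window `(y₁, y₂] ⊆ (0, n]` of a length of at least `n / log ^ A n` there is a prime `p` with
`√(2 n) < p < n` for which `2 n - p` is a prime, and the number of these primes is as predicted by Hardy and Littlewood, up
to a relative error of at most `ε`.

(2) For `μ`-almost every `x > 0` this holds for `λ_j = b ^ j` in all bases `b ≥ 2` at once: all the even integers at a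
distance of at most `j ^ W` from the integer consisting of the first digits of `x` (up to the `j`-th digit after the point)
in base `b` have this property, for all large `j`. -/
theorem result (μ : Measure ℝ) [IsProbabilityMeasure μ] (hμ : FourierSmall μ ∨ FourierDecay μ) :
    (∀ (lam : ℕ → ℝ) (δ : ℝ), 0 < δ → (∀ᶠ j : ℕ in atTop, Real.exp ((j : ℝ) ^ δ) ≤ lam j) →
      ∀ᵐ x ∂μ, 0 < x → ∀ (A W : ℕ) (ε : ℝ), 0 < ε → ∀ᶠ j : ℕ in atTop, ∀ m : ℕ, Even m →
        |(m : ℝ) - lam j * x| ≤ Real.log (lam j) ^ W → Holds ε A (m / 2)) ∧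
    (∀ᵐ x ∂μ, 0 < x → ∀ b : ℕ, 2 ≤ b → ∀ (A W : ℕ) (ε : ℝ), 0 < ε → ∀ᶠ j : ℕ in atTop, ∀ m : ℕ, Even m →
      |(m : ℝ) - (b : ℝ) ^ j * x| ≤ (j : ℝ) ^ W → Holds ε A (m / 2)) := by
  have hμ' : FourierSmall μ := hμ.elim id FourierDecay.small
  constructor
  · intro lam δ hδ hlam
    filter_upwards [gold_main μ hμ' lam δ hδ hlam] with x hx hx0 A W ε hε
    obtain ⟨m₀, hm₀⟩ := holds_of A ε hε
    exact hx hx0 (fun m => Holds ε A (m / 2)) (A + 1) W m₀ (min ε (1 / 2) / 2)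
      (div_pos (lt_min hε (by norm_num)) (by norm_num)) (fun m h1 h2 h3 => hm₀ (m / 2) (by omega) (by rw [Nat.mul_div_cancel' h2]; exact h3))
  · filter_upwards [gold_bases μ hμ'] with x hx hx0 b hb A W ε hε
    obtain ⟨m₀, hm₀⟩ := holds_of A ε hε
    exact hx hx0 b hb (fun m => Holds ε A (m / 2)) (A + 1) W m₀ (min ε (1 / 2) / 2)
      (div_pos (lt_min hε (by norm_num)) (by norm_num)) (fun m h1 h2 h3 => hm₀ (m / 2) (by omega) (by rw [Nat.mul_div_cancel' h2]; exact h3))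

end Pool.Agent.Results.MP_33f996_nt.FourierDecay
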