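import Mathlib
import Pool.Agent.U827.GM.Part

set_option autoImplicit false

/-!
# The number of Goldbach partitions with the smaller summand in `(√(2n), n)`, in random models of the primes

The question is whether every even `2n > 14` is a sum of two primes `p < q` with `p > √(2n)`. We study it in sieved random
models. Let `T` be nondecreasing, `T(n) → ∞` and `T(n) ≤ n^(o(1))`. Only the integers `n` without prime factors `p ≤ T(n)`
can be chosen, independently, with probability `∏_{p ≤ T(n)} (1 - 1/p)⁻¹ / log n`. (Granville's model has `T(n) = log n`.)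
Let `s(n)` be the number of partitions of `2n` into two chosen integers the smaller of which is in `(√(2n), n)`, let `M(n)`
and `V(n)` be its expectation and its variance, and let `G(n) = (2n)² / (φ(2n) log² (2n))`. We prove:

(1) almost surely every large `n` has such a partition; `limsup 2 s(n) / G(n) = 1`; and `liminf 2 s(n) / G(n) = C₂ κ`,
`C₂` being the twin prime constant and `κ = min(1, liminf log T(n) / log log n)`;

(2) `(s(n) - M(n)) / √V(n)` converges in law to the standard normal distribution;

(3) almost surely `|s(n) - M(n)| ≤ 3 √(V(n) log n)` for all large `n`;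

(4) `V(n) ~ M(n)`.

So the statement of the question holds in every sieved model for all large `n`, with normally distributed numbers of
partitions, and `s(n)` has the order of magnitude of `n² / (φ(2n) log² n)` exactly when the sieve reaches a power of `log n`.

Proof. The events that both `a` and `2n - a` are chosen, for `a < n`, are independent, so that `s(n)` is a sum of independent
variables. For (2) its characteristic function is compared with the Gaussian one; for (3) a bound of Bernstein's type and the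
Borel–Cantelli lemma are used. For (1) let `HL` be the prediction of Hardy and Littlewood for the number `r(2n)` of all
representations; `2 s(n) = r(2n) + O(√n)`. Then `C₂ G ≤ HL ≤ G`, and `r / HL` is almost surely at least `κ - o(1)` and at most
`1 + o(1)` (library `U839.Gb`). The limit superior is attained for `2n = 2^k ∏_{2 < p ≤ z} p` with a large fixed `z`, where
`HL / G` is near `1` and `r ~ HL`. The limit inferior is attained for `2n = 2^k ∏_{y < p ≤ (log n) / 2} p` with a large fixed
`y`, where `HL / G` is near `C₂`, while the sieve misses the prime factors of `n` above `T(n)`, which by Mertens' theorem costs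
the factor `κ`.
-/

open MeasureTheory ProbabilityTheory Filter Topology

namespace Pool.Agent.Results.MP_33f996_nt.GaussianPartitions

open Classical in
/-- `∏_{p ≤ T(n)} (1 - 1/p)⁻¹` if `n` has no prime factor `p ≤ T(n)`, and `0` otherwise. -/
noncomputable def weight (T : ℕ → ℕ) (n : ℕ) : ℝ :=
  if ∀ p, p.Prime → p ≤ T n → ¬ p ∣ n then
    ∏ p ∈ (Finset.Icc 1 (T n)).filter Nat.Prime, (1 - 1 / (p : ℝ))⁻¹ else 0

/-- The random model: `E n` is the event that `n` is chosen; these events are independent and have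
probability `weight T n / log n` (if this is at most `1`, which is the case for all large `n` here). -/
structure Model {Ω : Type*} [MeasurableSpace Ω] (μ : Measure Ω) (T : ℕ → ℕ) (E : ℕ → Set Ω) : Prop where
  meas : ∀ n, MeasurableSet (E n)
  indep : iIndepSet E μ
  law : ∀ n : ℕ, μ.real (E n) = min 1 (weight T n / Real.log n)

open Classical in
/-- The number of partitions `2 n = a + b` with `a, b` in `Q` and `√(2 n) < a < n`. -/
noncomputable def s (Q : Set ℕ) (n : ℕ) : ℕ :=
  ((Finset.range n).filter (fun a => 2 * n < a ^ 2 ∧ a ∈ Q ∧ 2 * n - a ∈ Q)).card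

/-- `(2 n)² / (φ(2 n) log² (2 n))`. -/
noncomputable def G (n : ℕ) : ℝ := ((2 * n : ℕ) : ℝ) ^ 2 / (Nat.totient (2 * n) * (Real.log (2 * n : ℕ)) ^ 2)

/-- The twin prime constant `C₂ = ∏_{p > 2} (1 - 1/(p - 1)²)`. -/
noncomputable def C₂ : ℝ := ⨅ z : ℕ, ∏ p ∈ (Finset.Icc 3 z).filter Nat.Prime, (1 - 1 / ((p : ℝ) - 1) ^ 2)

/-- `min(1, liminf log T(n) / log log n)`. -/
noncomputable def depth (T : ℕ → ℕ) : ℝ :=
  liminf (fun n : ℕ => min 1 (Real.log (T n) / Real.log (Real.log n))) atTop

/-- The expectation of the number of partitions in the random model. -/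
noncomputable def M {Ω : Type*} [MeasurableSpace Ω] (μ : Measure Ω) (E : ℕ → Set Ω) (n : ℕ) : ℝ :=
  ∫ ω, (s {k | ω ∈ E k} n : ℝ) ∂μ

/-- The variance of the number of partitions in the random model. -/
noncomputable def V {Ω : Type*} [MeasurableSpace Ω] (μ : Measure Ω) (E : ℕ → Set Ω) (n : ℕ) : ℝ :=
  Var[fun ω => (s {k | ω ∈ E k} n : ℝ); μ]

/-- (1), (2), (3) and (4). -/
theorem result {Ω : Type*} [MeasurableSpace Ω] {μ : Measure Ω} [IsProbabilityMeasure μ] (T : ℕ → ℕ)
    (hT : Monotone T) (hTup : ∀ ε : ℝ, 0 < ε → ∀ᶠ n : ℕ in atTop, (T n : ℝ) ≤ (n : ℝ) ^ ε)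
    (hTinf : Tendsto T atTop atTop) (E : ℕ → Set Ω) (hE : Model μ T E) :
    (∀ᵐ ω ∂μ,
      (∀ᶠ n : ℕ in atTop, 0 < s {k | ω ∈ E k} n) ∧
      limsup (fun n : ℕ => 2 * (s {k | ω ∈ E k} n : ℝ) / G n) atTop = 1 ∧
      liminf (fun n : ℕ => 2 * (s {k | ω ∈ E k} n : ℝ) / G n) atTop = C₂ * depth T) ∧
    (∀ x : ℝ, Tendsto (fun n : ℕ => μ.real {ω | s {k | ω ∈ E k} n - M μ E n ≤ x * √(V μ E n)}) atTop
      (𝓝 ((gaussianReal 0 1).real (Set.Iic x)))) ∧
    (∀ᵐ ω ∂μ, ∀ᶠ n : ℕ in atTop, |s {k | ω ∈ E k} n - M μ E n| ≤ 3 * √(V μ E n * Real.log n)) ∧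
    (∀ ε : ℝ, 0 < ε → ∀ᶠ n : ℕ in atTop, (1 - ε) * M μ E n ≤ V μ E n ∧ V μ E n ≤ M μ E n) := by
  have h : Pool.Agent.U839.Sv.Sieved μ E T := ⟨hE.meas, hE.indep, hE.law⟩
  have hM : ∀ n : ℕ, M μ E n = Pool.Agent.U827.GM.meanS (fun k => μ.real (E k)) n :=
    fun n => Pool.Agent.U827.GM.sp_int hE.meas hE.indep n
  have hV : ∀ n : ℕ, V μ E n = Pool.Agent.U827.GM.varS (fun k => μ.real (E k)) n :=
    fun n => Pool.Agent.U827.GM.sp_var hE.meas hE.indep n
  refine ⟨?_, fun x => ?_, ?_, fun ε hε => ?_⟩
  · filter_upwards [Pool.Agent.U827.GM.extremesS T hT hTup hTinf h,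
      Pool.Agent.U827.GM.spos T hT hTup hTinf h] with ω h1 h2
    exact ⟨h2, h1.2, h1.1⟩
  · simp only [hM, hV]
    exact Pool.Agent.U827.GM.gaussS T hT hTup hTinf h x
  · simp only [hM, hV]
    exact Pool.Agent.U827.GM.sq_errS T hT hTup hTinf h
  · simp only [hM, hV]
    filter_upwards [Pool.Agent.U827.GM.varS_low hTup h ε hε] with n h1
    exact ⟨h1, Pool.Agent.U827.GM.varS_up E n⟩

end Pool.Agent.Results.MP_33f996_nt.GaussianPartitions
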